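import Pool.Agent.H.MP_d7db32_ag.D

/-!
# MP_d7db32_ag: padding of the closure of the orbit of the determinant to size `C(2n,n) - 1`

`subst A f` is `f ∘ A`, `detPoly n` is `det_n`, `orbit n` is `GL_{n^2} . det_n`, and
`zariskiClosure S` is the Zariski closure of `S`.
-/

set_option autoImplicit false

namespace Pool.Agent.Results.MP_d7db32_ag.CentralBinomialPadding

open MvPolynomial PadDet

/-- The set `l ^ (m - n) GL_{n^2} . det_n` of forms on `V_m`, where `V_n` is the coordinate subspace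
of `V_m` given by `e`. -/
def padded (n m : ℕ) (e : Fin n × Fin n ↪ Fin m × Fin m) (l : MvPolynomial (Fin m × Fin m) ℂ) :
    Set (MvPolynomial (Fin m × Fin m) ℂ) :=
  {h | ∃ g ∈ orbit n, h = l ^ (m - n) * rename e g}

/-- The set `Mat_{m^2 × m^2} . det_m`. -/
def images (m : ℕ) : Set (MvPolynomial (Fin m × Fin m) ℂ) :=
  {h | ∃ A : Matrix (Fin m × Fin m) (Fin m × Fin m) ℂ, h = subst A (detPoly m)}

/-- The closure of `l ^ (m - n) GL_{n^2} . det_n` lies in `Mat_{m^2 × m^2} . det_m` for all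
`m ≥ C(2n,n) - 1` and all nonzero linear forms `l`. -/
theorem result (n m : ℕ) (hn : 1 ≤ n) (hm : (2 * n).choose n - 1 ≤ m)
    (e : Fin n × Fin n ↪ Fin m × Fin m) (l : MvPolynomial (Fin m × Fin m) ℂ)
    (hl1 : l.IsHomogeneous 1) (hl : l ≠ 0) :
    zariskiClosure (padded n m e l) ⊆ images m := by
  intro w hw
  let T : MvPolynomial (Fin n × Fin n) ℂ →ₗ[ℂ] MvPolynomial (Fin m × Fin m) ℂ :=
    LinearMap.mulLeft ℂ (l ^ (m - n)) ∘ₗ (rename e).toLinearMap
  have hT : ∀ g, T g = l ^ (m - n) * rename e g := fun g => rfl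
  have hinj : Function.Injective T := by
    intro a b hab
    rw [hT, hT] at hab
    exact rename_injective e e.injective (mul_left_cancel₀ (pow_ne_zero _ hl) hab)
  have himg : padded n m e l = T '' orbit n := by
    ext h
    constructor
    · rintro ⟨g, hg, rfl⟩; exact ⟨g, hg, rfl⟩
    · rintro ⟨g, hg, rfl⟩; exact ⟨g, hg, rfl⟩
  rw [himg] at hw
  obtain ⟨f, hf, rfl⟩ := closure_image T hinj hw
  obtain ⟨M, hM, hdet⟩ := core hn hm e l hl1 hl hf
  rw [hT, ← hdet]
  exact to_subst M hM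

end Pool.Agent.Results.MP_d7db32_ag.CentralBinomialPadding
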