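import Pool.Agent.H.MP_d7db32_ag.Eq.Up
import Pool.Agent.H.MP_d7db32_ag.Eq.Apx
import Pool.Agent.H.MP_d7db32_ag.Eq.M.Pt2

/-!
# MP_d7db32_ag: equivariant padding of a boundary form of the orbit of the determinant

`skewForm n` is the form `F = tr (adj (X - Xᵀ) (X + Xᵀ))` in the entries of an `n × n` matrix `X`;
`F (g X gᵀ) = det g ^ 2 * F X`, so its symmetry group contains `SL_n`. `act (g, s)` is
`A ↦ g A gᵀ` on skew matrices `A` and `Y ↦ s g Y gᵀ` on symmetric matrices `Y`, `act (g, 1)` is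
`X ↦ g X gᵀ`. `orbit n` is `GL_{n^2} . det_n`, `zariskiClosure S` is the Zariski closure.
-/

set_option autoImplicit false

namespace Pool.Agent.Results.MP_d7db32_ag.EquivariantPadding

open MvPolynomial Matrix PadDet PadDet.Eq

/-- The sizes `m` of the determinant expressions `f X = det (L + M X)`, `M` linear, which are
equivariant under the group `H` of linear automorphisms in the sense of Landsberg and Ressayre:
every `h` in `H` lifts to a symmetry of the determinant `det_m`. -/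
def lrSizes {n : ℕ} (f : MvPolynomial (Fin n × Fin n) ℂ)
    (H : Subgroup (Matrix (Fin n) (Fin n) ℂ ≃ₗ[ℂ] Matrix (Fin n) (Fin n) ℂ)) : Set ℕ :=
  {m | ∃ (L : Matrix (Fin m) (Fin m) ℂ)
    (M : Matrix (Fin n) (Fin n) ℂ →ₗ[ℂ] Matrix (Fin m) (Fin m) ℂ),
    (∀ X : Matrix (Fin n) (Fin n) ℂ, (L + M X).det = eval (fun p => X p.1 p.2) f) ∧
    ∀ h ∈ H, ∃ A B : GL (Fin m) ℂ,
      (∀ X : Matrix (Fin n) (Fin n) ℂ, L + M (h X) =
        (A : Matrix (Fin m) (Fin m) ℂ) * (L + M X) * (B : Matrix (Fin m) (Fin m) ℂ)) ∨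
      (∀ X : Matrix (Fin n) (Fin n) ℂ, L + M (h X) =
        (A : Matrix (Fin m) (Fin m) ℂ) * (L + M X)ᵀ * (B : Matrix (Fin m) (Fin m) ℂ))}

private theorem mem_of_pexpr {n m : ℕ} {f : MvPolynomial (Fin n × Fin n) ℂ}
    {G : Subgroup (GL (Fin n) ℂ × ℂˣ)} {L : Matrix (Fin m) (Fin m) ℂ}
    {M : Matrix (Fin n) (Fin n) ℂ →ₗ[ℂ] Matrix (Fin m) (Fin m) ℂ} (hE : PExpr m f G L M)
    (H : Subgroup (Matrix (Fin n) (Fin n) ℂ ≃ₗ[ℂ] Matrix (Fin n) (Fin n) ℂ))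
    (hH : ∀ h ∈ H, ∃ x ∈ G, ∀ X, h X = act x X) : m ∈ lrSizes f H := by
  refine ⟨L, M, hE.det, fun h hh => ?_⟩
  obtain ⟨x, hx, hX⟩ := hH h hh
  obtain ⟨A, B, hAB⟩ := hE.eqv x hx
  refine ⟨A, B⁻¹, ?_⟩
  rcases hAB with hAB | hAB
  · left
    intro X
    rw [hX X]
    exact hAB X
  · right
    intro X
    rw [hX X]
    exact hAB X

private theorem act_one_right {n : ℕ} (g : GL (Fin n) ℂ) (X : Matrix (Fin n) (Fin n) ℂ) :
    act (g, 1) X = (g : Matrix (Fin n) (Fin n) ℂ) * X * (g : Matrix (Fin n) (Fin n) ℂ)ᵀ := by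
  have e : ((1 / 2 : ℂ) • (X - Xᵀ) + (((1 : ℂˣ) : ℂ) / 2) • (X + Xᵀ)) = X := by
    rw [Units.val_one]
    module
  unfold act
  simp only [e]

/-- For `n` odd: the form `F = tr (adj (X - Xᵀ) (X + Xᵀ))` is a limit for `t → 0` of forms in
`GL_{n^2} . det_n` which have determinant expressions of size `n` equivariant under the group
`GL_n` of all `X ↦ g X gᵀ`; but every determinant expression of `F` which is equivariant under
a group `H` that contains `SL_n` (for example the symmetry group of `F`) has size at least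
`2 ^ n - 1`, and there is one of size `2 ^ n - 1` if `H` consists of maps `act (g, s)`. -/
theorem result (n : ℕ) (hn : Odd n) :
    skewForm n ∈ zariskiClosure (orbit n) ∧
    (∃ (N : ℕ) (f : ℕ → MvPolynomial (Fin n × Fin n) ℂ), f 0 = skewForm n ∧
      ∀ t : ℂ, t ≠ 0 →
        (∑ j ∈ Finset.range (N + 1), t ^ j • f j) ∈ orbit n ∧
        ∀ H : Subgroup (Matrix (Fin n) (Fin n) ℂ ≃ₗ[ℂ] Matrix (Fin n) (Fin n) ℂ),
          (∀ h ∈ H, ∃ g : GL (Fin n) ℂ, ∀ X, h X =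
            (g : Matrix (Fin n) (Fin n) ℂ) * X * (g : Matrix (Fin n) (Fin n) ℂ)ᵀ) →
          n ∈ lrSizes (∑ j ∈ Finset.range (N + 1), t ^ j • f j) H) ∧
    ∀ H : Subgroup (Matrix (Fin n) (Fin n) ℂ ≃ₗ[ℂ] Matrix (Fin n) (Fin n) ℂ),
      (∀ g : GL (Fin n) ℂ, (g : Matrix (Fin n) (Fin n) ℂ).det = 1 → ∃ h ∈ H, ∀ X,
        h X = (g : Matrix (Fin n) (Fin n) ℂ) * X * (g : Matrix (Fin n) (Fin n) ℂ)ᵀ) →
      (∀ m ∈ lrSizes (skewForm n) H, 2 ^ n - 1 ≤ m) ∧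
      ((∀ h ∈ H, ∃ (g : GL (Fin n) ℂ) (s : ℂˣ), ∀ X, h X = act (g, s) X) →
        2 ^ n - 1 ∈ lrSizes (skewForm n) H) := by
  obtain ⟨k, rfl⟩ := hn
  refine ⟨skew_mem k, ?_, fun H h1 => ⟨?_, fun h2 => ?_⟩⟩
  · obtain ⟨N, f, h0, ht⟩ := apx k
    refine ⟨N, f, h0, fun t ht0 => ⟨(ht t ht0).1, fun H hH => ?_⟩⟩
    obtain ⟨M, ρ, ρ', hE⟩ := (ht t ht0).2
    refine mem_of_pexpr hE.pexpr H fun h hh => ?_
    obtain ⟨g, hg⟩ := hH h hh
    refine ⟨(g, 1), Subgroup.mem_prod.2 ⟨Subgroup.mem_top _, Subgroup.mem_bot.2 rfl⟩, fun X => ?_⟩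
    rw [hg X, act_one_right]
  · rintro m ⟨L, M, hdet, heqv⟩
    refine low_sl k m ((MonoidHom.ker
      (Matrix.GeneralLinearGroup.det : GL (Fin (2 * k + 1)) ℂ →* ℂˣ)).prod ⊥) (fun g hg => ?_) L M
      ⟨hdet, ?_⟩
    · refine Subgroup.mem_prod.2 ⟨?_, Subgroup.mem_bot.2 rfl⟩
      rw [MonoidHom.mem_ker]
      apply Units.ext
      exact hg
    · rintro ⟨g, s⟩ hgs
      obtain ⟨hg, hs⟩ := Subgroup.mem_prod.1 hgs
      have hs' : s = 1 := Subgroup.mem_bot.1 hs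
      subst hs'
      have hg' : (g : Matrix (Fin (2 * k + 1)) (Fin (2 * k + 1)) ℂ).det = 1 := by
        have := congrArg Units.val (MonoidHom.mem_ker.1 hg)
        exact this
      obtain ⟨h, hh, hX⟩ := h1 g hg'
      obtain ⟨A, B, hAB⟩ := heqv h hh
      refine ⟨A, B⁻¹, ?_⟩
      rw [inv_inv]
      rcases hAB with hAB | hAB
      · left
        intro X
        rw [act_one_right, ← hX X]
        exact hAB X
      · right
        intro X
        rw [act_one_right, ← hX X]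
        exact hAB X
  · obtain ⟨L, M, ρ, ρ', hE⟩ := upper k
    refine mem_of_pexpr hE.pexpr H fun h hh => ?_
    obtain ⟨g, s, hX⟩ := h2 h hh
    exact ⟨(g, s), Subgroup.mem_top _, hX⟩

end Pool.Agent.Results.MP_d7db32_ag.EquivariantPadding
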