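import Pool.Agent.H.MP_d7db32_ag.Eq.Apx
import Pool.Agent.H.MP_d7db32_ag.Eq.V.As
import Pool.Agent.H.MP_d7db32_ag.Eq.V.Fo
import Pool.Agent.H.MP_d7db32_ag.Eq.O.OrF

/-!
# MP_d7db32_ag: one symmetry and a boundary form of the orbit of the determinant

`skewForm n` is the form `F = tr (adj (X - Xᵀ) (X + Xᵀ))` in the entries of an `n × n` matrix `X`.
`act (g, s)` is `A ↦ g A gᵀ` on skew matrices `A` and `Y ↦ s g Y gᵀ` on symmetric matrices `Y`, so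
`act (g, 1)` is `X ↦ g X gᵀ`. `orbit n` is `GL_{n^2} . det_n`, `zariskiClosure S` is the Zariski
closure of `S`.
-/

set_option autoImplicit false

namespace Pool.Agent.Results.MP_d7db32_ag.OneSymmetry

open MvPolynomial Matrix PadDet PadDet.Eq

/-- `f X = det (L + M X)` for all `X`: a determinant expression of `f`, of size `m`. -/
def IsExpr {n m : ℕ} (f : MvPolynomial (Fin n × Fin n) ℂ) (L : Matrix (Fin m) (Fin m) ℂ)
    (M : Matrix (Fin n) (Fin n) ℂ →ₗ[ℂ] Matrix (Fin m) (Fin m) ℂ) : Prop :=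
  ∀ X : Matrix (Fin n) (Fin n) ℂ, (L + M X).det = eval (fun p => X p.1 p.2) f

/-- `h` lifts to a symmetry of the determinant `det_m`, with or without transposition. -/
def Lifts {n m : ℕ} (L : Matrix (Fin m) (Fin m) ℂ)
    (M : Matrix (Fin n) (Fin n) ℂ →ₗ[ℂ] Matrix (Fin m) (Fin m) ℂ)
    (h : Matrix (Fin n) (Fin n) ℂ → Matrix (Fin n) (Fin n) ℂ) : Prop :=
  ∃ A B : GL (Fin m) ℂ,
    (∀ X : Matrix (Fin n) (Fin n) ℂ, L + M (h X) =
      (A : Matrix (Fin m) (Fin m) ℂ) * (L + M X) * (B : Matrix (Fin m) (Fin m) ℂ)) ∨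
    (∀ X : Matrix (Fin n) (Fin n) ℂ, L + M (h X) =
      (A : Matrix (Fin m) (Fin m) ℂ) * (L + M X)ᵀ * (B : Matrix (Fin m) (Fin m) ℂ))

private theorem act_one_right {n : ℕ} (g : GL (Fin n) ℂ) (X : Matrix (Fin n) (Fin n) ℂ) :
    act (g, 1) X = (g : Matrix (Fin n) (Fin n) ℂ) * X * (g : Matrix (Fin n) (Fin n) ℂ)ᵀ := by
  have e : ((1 / 2 : ℂ) • (X - Xᵀ) + (((1 : ℂˣ) : ℂ) / 2) • (X + Xᵀ)) = X := by
    rw [Units.val_one]
    module
  unfold act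
  simp only [e]

/-- For `n` odd: the form `F = tr (adj (X - Xᵀ) (X + Xᵀ))` is a limit for `t → 0` of forms in
`GL_{n^2} . det_n` which have determinant expressions of size `n` to which all `X ↦ g X gᵀ` lift,
and it has an expression of size `(n - 1) n ^ 2 + 1` to which all `X ↦ g X gᵀ` with `g` orthogonal
lift. But if a single `act (g, s)` lifts to a determinant expression of `F` of size `m`, where `g`
is diagonalizable with eigenvalues `t i`, `t i ^ 2 = 1` outside a set `S` of `2 j + 1` indices, and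
where `s ^ (2 e) * ∏ i, t i ^ (2 w i) = 1` with `|e| ≤ 1`, `|w i| ≤ 2`, `w = 0` outside `S`,
implies that `w` is constant on `S`, then `m ≥ 2 ^ j`. In particular there is `g` in `SL_n` of
finite order such that every determinant expression of `F` to which `X ↦ g X gᵀ` lifts has size at
least `2 ^ ((n - 1) / 2)`. -/
theorem result (n : ℕ) (hn : Odd n) :
    skewForm n ∈ zariskiClosure (orbit n) ∧
    (∃ (N : ℕ) (f : ℕ → MvPolynomial (Fin n × Fin n) ℂ), f 0 = skewForm n ∧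
      ∀ t : ℂ, t ≠ 0 →
        (∑ j ∈ Finset.range (N + 1), t ^ j • f j) ∈ orbit n ∧
        ∃ (L : Matrix (Fin n) (Fin n) ℂ)
          (M : Matrix (Fin n) (Fin n) ℂ →ₗ[ℂ] Matrix (Fin n) (Fin n) ℂ),
          IsExpr (∑ j ∈ Finset.range (N + 1), t ^ j • f j) L M ∧
          ∀ g : GL (Fin n) ℂ, Lifts L M (act (g, 1))) ∧
    (∃ (L : Matrix (Fin ((n - 1) * n ^ 2 + 1)) (Fin ((n - 1) * n ^ 2 + 1)) ℂ)
      (M : Matrix (Fin n) (Fin n) ℂ →ₗ[ℂ]
        Matrix (Fin ((n - 1) * n ^ 2 + 1)) (Fin ((n - 1) * n ^ 2 + 1)) ℂ),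
      IsExpr (skewForm n) L M ∧ ∀ g : GL (Fin n) ℂ,
        (g : Matrix (Fin n) (Fin n) ℂ) * (g : Matrix (Fin n) (Fin n) ℂ)ᵀ = 1 →
          Lifts L M (act (g, 1))) ∧
    (∀ (m : ℕ) (L : Matrix (Fin m) (Fin m) ℂ)
      (M : Matrix (Fin n) (Fin n) ℂ →ₗ[ℂ] Matrix (Fin m) (Fin m) ℂ),
      IsExpr (skewForm n) L M →
      ∀ (j : ℕ) (S : Finset (Fin n)) (t : Fin n → ℂ) (s : ℂˣ) (g P : GL (Fin n) ℂ),
        S.card = 2 * j + 1 → (∀ i, i ∉ S → t i ^ 2 = 1) →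
        (g : Matrix (Fin n) (Fin n) ℂ) * (P : Matrix (Fin n) (Fin n) ℂ) =
          (P : Matrix (Fin n) (Fin n) ℂ) * Matrix.diagonal t →
        (∀ (w : Fin n → ℤ) (e : ℤ), (∀ i, i ∉ S → w i = 0) → (∀ i, |w i| ≤ 2) → |e| ≤ 1 →
          (s : ℂ) ^ (2 * e) * ∏ i, t i ^ (2 * w i) = 1 → ∀ i ∈ S, ∀ i' ∈ S, w i = w i') →
        Lifts L M (act (g, s)) → 2 ^ j ≤ m) ∧
    ∃ g : GL (Fin n) ℂ, (g : Matrix (Fin n) (Fin n) ℂ).det = 1 ∧ g ^ (2 * 5 ^ n) = 1 ∧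
      ∀ (m : ℕ) (L : Matrix (Fin m) (Fin m) ℂ)
        (M : Matrix (Fin n) (Fin n) ℂ →ₗ[ℂ] Matrix (Fin m) (Fin m) ℂ),
        IsExpr (skewForm n) L M → Lifts L M (act (g, 1)) → 2 ^ ((n - 1) / 2) ≤ m := by
  obtain ⟨k, rfl⟩ := hn
  have hmain : ∀ (m : ℕ) (L : Matrix (Fin m) (Fin m) ℂ)
      (M : Matrix (Fin (2 * k + 1)) (Fin (2 * k + 1)) ℂ →ₗ[ℂ] Matrix (Fin m) (Fin m) ℂ),
      IsExpr (skewForm (2 * k + 1)) L M → ∀ X, (L + M X).det = 1 * Fv X :=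
    fun m L M hLM X => by rw [hLM X, eval_skew, one_mul]
  refine ⟨skew_mem k, ?_, ?_, fun m L M hLM j S t s g P hS h1 hgP hD hT => ?_, ?_⟩
  · obtain ⟨N, f, h0, ht⟩ := apx k
    refine ⟨N, f, h0, fun t ht0 => ⟨(ht t ht0).1, ?_⟩⟩
    obtain ⟨M, ρ, ρ', hE⟩ := (ht t ht0).2
    refine ⟨_, M, hE.det, fun g => ?_⟩
    have hg : (g, (1 : ℂˣ)) ∈ (⊤ : Subgroup (GL (Fin (2 * k + 1)) ℂ)).prod (⊥ : Subgroup ℂˣ) :=
      Subgroup.mem_prod.2 ⟨Subgroup.mem_top _, Subgroup.mem_bot.2 rfl⟩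
    exact ⟨ρ' ⟨_, hg⟩, (ρ ⟨_, hg⟩)⁻¹, Or.inl fun X => hE.eqv ⟨_, hg⟩ X⟩
  · obtain ⟨L, M, hdet, hLM⟩ := orf k
    refine ⟨L, M, fun X => ?_, fun g hg => ?_⟩
    · rw [eval_skew]
      exact hdet X
    · obtain ⟨A, B, hAB⟩ := hLM g hg
      refine ⟨A, B, Or.inl fun X => ?_⟩
      rw [act_one_right]
      exact hAB X
  · exact low_gen k m one_ne_zero L M (hmain m L M hLM) hS h1 hgP hD hT
  · obtain ⟨t, ht1, ht2, ht3⟩ := exists_fo (2 * k)
    obtain ⟨g, hg⟩ : ∃ g : GL (Fin (2 * k + 1)) ℂ,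
        (g : Matrix (Fin (2 * k + 1)) (Fin (2 * k + 1)) ℂ) = Matrix.diagonal t := by
      refine ⟨Matrix.GeneralLinearGroup.mkOfDetNeZero (Matrix.diagonal t) ?_, rfl⟩
      rw [Matrix.det_diagonal, ht2]
      exact one_ne_zero
    refine ⟨g, ?_, ?_, fun m L M hLM hT => ?_⟩
    · rw [hg, Matrix.det_diagonal, ht2]
    · apply Units.ext
      rw [Units.val_pow_eq_pow_val, hg, Matrix.diagonal_pow, Units.val_one, ← Matrix.diagonal_one]
      congr 1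
      funext i
      exact ht1 i
    · have e1 : (2 * k + 1 - 1) / 2 = k := by omega
      rw [e1]
      refine low_gen k m one_ne_zero L M (hmain m L M hLM) (j := k) (S := Finset.univ) (t := t)
        (by rw [Finset.card_univ, Fintype.card_fin])
        (fun i hi => absurd (Finset.mem_univ i) hi) (g := g) (P := 1) (s := 1) ?_ ?_ hT
      · rw [hg, Units.val_one, mul_one, one_mul]
      · intro w e _ hw _ h i _ i' _
        rw [Units.val_one, _root_.one_zpow, one_mul] at h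
        exact ht3 w hw h i i'

end Pool.Agent.Results.MP_d7db32_ag.OneSymmetry
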