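import Pool.Agent.H.MP_d7db32_ag.K

/-!
# MP_d7db32_ag: the padding of the closure of the orbit of the determinant is at least `√2 n`

`subst A f` is `f ∘ A`, `detPoly n` is `det_n`, `orbit n` is `GL_{n^2} . det_n`, and
`zariskiClosure S` is the Zariski closure of `S`.
-/

set_option autoImplicit false

namespace Pool.Agent.Results.MP_d7db32_ag.PaddingLowerBound

open MvPolynomial PadDet

/-- The set `l ^ (m - n) GL_{n^2} . det_n` of forms on `V_m`, where `V_n` is the coordinate subspace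
of `V_m` given by `e`. -/
def padded (n m : ℕ) (e : Fin n × Fin n ↪ Fin m × Fin m) (l : MvPolynomial (Fin m × Fin m) ℂ) :
    Set (MvPolynomial (Fin m × Fin m) ℂ) :=
  {h | ∃ g ∈ orbit n, h = l ^ (m - n) * rename e g}

/-- The set `Mat_{m^2 × m^2} . det_m`. -/
def images (m : ℕ) : Set (MvPolynomial (Fin m × Fin m) ℂ) :=
  {h | ∃ A : Matrix (Fin m × Fin m) (Fin m × Fin m) ℂ, h = subst A (detPoly m)}

/-- If `m ^ 2 < 2 (n ^ 2 - n - 1)` then the closure of `l ^ (m - n) GL_{n^2} . det_n` does not lie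
in `Mat_{m^2 × m^2} . det_m` for any nonzero linear form `l`. -/
theorem result (n m : ℕ) (hm : m ^ 2 < 2 * (n ^ 2 - n - 1))
    (e : Fin n × Fin n ↪ Fin m × Fin m) (l : MvPolynomial (Fin m × Fin m) ℂ)
    (hl1 : l.IsHomogeneous 1) (hl : l ≠ 0) :
    ¬ zariskiClosure (padded n m e l) ⊆ images m := by
  intro hsub
  have hcard : n * n ≤ m * m := by
    simpa using Fintype.card_le_of_embedding e
  have hn : 3 ≤ n := by
    by_contra hlt
    have h2 : n ≤ 2 := by omega
    interval_cases n <;> simp at hm <;> nlinarith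
  let T : MvPolynomial (Fin n × Fin n) ℂ →ₗ[ℂ] MvPolynomial (Fin m × Fin m) ℂ :=
    LinearMap.mulLeft ℂ (l ^ (m - n)) ∘ₗ (rename e).toLinearMap
  have hT : ∀ g, T g = l ^ (m - n) * rename e g := fun g => rfl
  have himg : padded n m e l = T '' orbit n := by
    ext h
    constructor
    · rintro ⟨g, hg, rfl⟩; exact ⟨g, hg, rfl⟩
    · rintro ⟨g, hg, rfl⟩; exact ⟨g, hg, rfl⟩
  have h1 : T (limPoly n) ∈ zariskiClosure (padded n m e l) := by
    rw [himg]
    exact closure_map (limPoly_mem (by omega)) T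
  obtain ⟨A, hA⟩ := hsub h1
  have h2 := core_lower hn e l hl1 hl A hA
  have h3 : n ≤ n * n := Nat.le_mul_self n
  rw [sq, sq] at hm
  omega

end Pool.Agent.Results.MP_d7db32_ag.PaddingLowerBound
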